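import Pool.Agent.TH180.OT.Fam
import Pool.Agent.TH180.OT.Cong

/-!
The `L`-functions modulo `l` of elliptic curves with a rational point of prime order `l ≥ 5` over
global function fields.
-/

set_option autoImplicit false
set_option linter.all false
set_option maxHeartbeats 4000000

open Polynomial Pool.Agent.W343.BSD Pool.Agent.W313.Gr

namespace Pool.Agent.Results.MP_ae0bd0_nt.OddTorsionPrimes

section defs

open Classical in
/-- `E : y ^ 2 = x ^ 3 + a x + b` has a `K`-rational point of order `l`. -/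
def HasPointOfOrder {K : Type} [Field K] (l : ℕ) (a b : K) : Prop :=
  ∃ P : (curve a b).toAffine.Point, addOrderOf P = l

/-- `E` has split multiplicative reduction at `v`. -/
def IsSplit {k K : Type} [Field k] [Field K] [Algebra k K] (v : FF.Place k K) (a b : K) : Prop :=
  v.ord (minDisc v a b) ≠ 0 ∧ S.trace v a b = 1

/-- `E` has nonsplit multiplicative reduction at `v`. -/
def IsNonsplit {k K : Type} [Field k] [Field K] [Algebra k K] (v : FF.Place k K) (a b : K) :
    Prop := v.ord (minDisc v a b) ≠ 0 ∧ S.trace v a b = -1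

open Classical in
/-- The sum over the places `v` of split multiplicative reduction of the largest power of `l`
dividing `deg v`. -/
noncomputable def splitSum (l : ℕ) (k : Type) {K : Type} [Field k] [Field K] [Algebra k K]
    (a b : K) : ℕ :=
  ∑ᶠ v : FF.Place k K, (if IsSplit v a b then 1 else 0) * l ^ padicValNat l (S.deg v)

open Classical in
/-- The factor of a place `v` of degree `d`: `1 - (q T) ^ d` for split multiplicative and
`1 - T ^ d` for nonsplit multiplicative reduction, and otherwise `1`. -/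
noncomputable def placeFactor (l : ℕ) {k K : Type} [Field k] [Field K] [Algebra k K]
    (v : FF.Place k K) (a b : K) : (ZMod l)[X] :=
  if IsSplit v a b then 1 - (C (Nat.card k : ZMod l) * X) ^ S.deg v
  else if IsNonsplit v a b then 1 - X ^ S.deg v else 1

/-- The congruence `(1 - T) (1 - q T) ^ 2 (1 - q ^ 2 T) L(T, E) = P(T) P(q T) ∏ (factor of v)`
modulo `l`. -/
def Congruence (l : ℕ) (k : Type) {K : Type} [Field k] [Field K] [Algebra k K] (a b : K)
    (P : ℤ[X]) : Prop :=
  (((1 - X) * (1 - C (Nat.card k : ZMod l) * X) ^ 2 * (1 - C ((Nat.card k : ZMod l) ^ 2) * X) :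
      (ZMod l)[X]) : PowerSeries (ZMod l)) *
    PowerSeries.map (Int.castRingHom (ZMod l)) (S.Lfun k a b) =
  ((P.map (Int.castRingHom (ZMod l)) * (P.map (Int.castRingHom (ZMod l))).comp
      (C (Nat.card k : ZMod l) * X) * ∏ᶠ v : FF.Place k K, placeFactor l v a b : (ZMod l)[X]) :
        PowerSeries (ZMod l))

/-- The number `δ`: it is `4` if `q` is `1` modulo `l` and otherwise `2`. -/
noncomputable def delta (l : ℕ) (k : Type) : ℕ := if l ∣ Nat.card k - 1 then 4 else 2

/-- If `L(T, E)` is a polynomial then it does not vanish modulo `l` and its order of vanishing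
modulo `l` at `T = 1 / q` is exactly `N - δ`. -/
def OrderModL (l : ℕ) (k : Type) {K : Type} [Field k] [Field K] [Algebra k K] (a b : K)
    (N : ℕ) : Prop :=
  ∀ Q : ℤ[X], S.Lfun k a b = (Q : PowerSeries ℤ) → Q.map (Int.castRingHom (ZMod l)) ≠ 0 ∧
    (Q.map (Int.castRingHom (ZMod l))).rootMultiplicity ((Nat.card k : ZMod l)⁻¹) + delta l k = N

/-- `L(T, E) = L(T)` is an integral polynomial `P(T)`, of degree `N` say, and satisfies the functional
equation `T ^ N L(T ^ (-1) / q) = ε L(T / q)`. -/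
def HasSign (k : Type) {K : Type} [Field k] [Field K] [Algebra k K] (a b : K) (ε : ℤ) : Prop :=
  ∃ P : ℤ[X], S.Lfun k a b = (P : PowerSeries ℤ) ∧ ∀ x : ℚ, x ≠ 0 →
    x ^ P.natDegree * (P.map (Int.castRingHom ℚ)).eval (x * (Nat.card k : ℚ))⁻¹ =
      ε * (P.map (Int.castRingHom ℚ)).eval (x / (Nat.card k : ℚ))

/-- The order of vanishing of `L(T, E)` at `T = 1 / q` (if `L(T, E)` is a polynomial) is zero, even
modulo `l`, and the rank of the group of rational points is zero if it is at most the order. -/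
def OrderZero (l : ℕ) (k : Type) {K : Type} [Field k] [Field K] [Algebra k K] (a b : K) : Prop :=
  (∀ r : ℕ, HasOrder k a b r → r = 0 ∧ (rank a b ≤ r → rank a b = r)) ∧
  ∀ Q : ℤ[X], S.Lfun k a b = (Q : PowerSeries ℤ) →
    (Q.map (Int.castRingHom (ZMod l))).eval ((Nat.card k : ZMod l)⁻¹) ≠ 0

/-- The order of vanishing `r` is at most one; if the functional equation holds with the sign `1`
then `r` is zero, and so is the rank if it is at most `r`; if it holds with the sign `-1` then `r` is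
one. -/
def OrderBySign (k : Type) {K : Type} [Field k] [Field K] [Algebra k K] (a b : K) : Prop :=
  ∀ r : ℕ, HasOrder k a b r → r ≤ 1 ∧
    (HasSign k a b 1 → r = 0 ∧ (rank a b ≤ r → rank a b = r)) ∧
    (HasSign k a b (-1) → r = 1)

/-- The order of vanishing is at most `N - δ`; it is zero if `N ≤ δ` and given by the sign if
`N ≤ δ + 1`. -/
def OrderBound (l : ℕ) (k : Type) {K : Type} [Field k] [Field K] [Algebra k K] (a b : K)
    (N : ℕ) : Prop :=
  (∀ m : ℕ, S.VanishesTo k a b m → m + delta l k ≤ N) ∧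
    (N ≤ delta l k → OrderZero l k a b) ∧ (N ≤ delta l k + 1 → OrderBySign k a b)

variable {k : Type} [Field k]

/-- The invariant `b₂` of the curve `y ^ 2 + (1 - γ) x y - β y = x ^ 3 - β x ^ 2`. -/
noncomputable def tateTwo (β γ : k[X]) : k[X] := (1 - γ) ^ 2 - 4 * β

/-- The coefficient `- 27 c₄` of the short form `y ^ 2 = x ^ 3 - 27 c₄ x - 54 c₆` of
`y ^ 2 + (1 - γ) x y - β y = x ^ 3 - β x ^ 2`. -/
noncomputable def shortA (β γ : k[X]) : RatFunc k :=
  algebraMap k[X] (RatFunc k) (-27 * (tateTwo β γ ^ 2 + 24 * β * (1 - γ)))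

/-- The coefficient `- 54 c₆` of the same short form. -/
noncomputable def shortB (β γ : k[X]) : RatFunc k :=
  algebraMap k[X] (RatFunc k)
    (54 * tateTwo β γ ^ 3 + 1944 * β * tateTwo β γ * (1 - γ) + 11664 * β ^ 2)

open Classical in
/-- The monic irreducible factors of a polynomial. -/
noncomputable def primes (g : k[X]) : Finset k[X] :=
  (UniqueFactorizationMonoid.normalizedFactors g).toFinset

open Classical in
/-- The sum of `l ^ v_l(deg P)` over the monic irreducible factors `P` of `β`, and over those of `γ`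
for which `q ^ deg P` is `1` modulo `l`. -/
noncomputable def primeSum (l : ℕ) (β γ : k[X]) : ℕ :=
  ∑ P ∈ primes β, l ^ padicValNat l P.natDegree +
  ∑ P ∈ (primes γ).filter (fun P => l ∣ Nat.card k ^ P.natDegree - 1),
    l ^ padicValNat l P.natDegree

/-- The curves with a point of order five. -/
def CaseFive (k : Type) [Field k] : Prop :=
  ∀ β : k[X], β ≠ 0 → β ^ 2 - 11 * β - 1 ≠ 0 →
    (4 * shortA β β ^ 3 + 27 * shortB β β ^ 2 ≠ 0 ∧ HasPointOfOrder 5 (shortA β β) (shortB β β)) ∧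
    OrderBound 5 k (shortA β β) (shortB β β) (primeSum 5 β (β ^ 2 - 11 * β - 1) + 1) ∧
    (Irreducible β → ¬ 5 ∣ β.natDegree →
      (¬ 5 ∣ Nat.card k - 1 → (∀ P : k[X], Irreducible P → P ∣ β ^ 2 - 11 * β - 1 →
        ¬ 5 ∣ Nat.card k ^ P.natDegree - 1) → OrderZero 5 k (shortA β β) (shortB β β)) ∧
      (5 ∣ Nat.card k - 1 → ∀ r s : k, r + s = 11 → r * s = -1 → Irreducible (β - C r) →
        Irreducible (β - C s) → OrderZero 5 k (shortA β β) (shortB β β)))

/-- The curves with a point of order seven. -/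
def CaseSeven (k : Type) [Field k] : Prop :=
  ∀ d : k[X], d ≠ 0 → d - 1 ≠ 0 → d ^ 3 - 8 * d ^ 2 + 5 * d + 1 ≠ 0 →
    (4 * shortA (d ^ 3 - d ^ 2) (d ^ 2 - d) ^ 3 + 27 * shortB (d ^ 3 - d ^ 2) (d ^ 2 - d) ^ 2 ≠ 0 ∧
      HasPointOfOrder 7 (shortA (d ^ 3 - d ^ 2) (d ^ 2 - d)) (shortB (d ^ 3 - d ^ 2) (d ^ 2 - d))) ∧
    OrderBound 7 k (shortA (d ^ 3 - d ^ 2) (d ^ 2 - d)) (shortB (d ^ 3 - d ^ 2) (d ^ 2 - d))
      (primeSum 7 (d * (d - 1)) (d ^ 3 - 8 * d ^ 2 + 5 * d + 1) + 1) ∧
    (Irreducible d → Irreducible (d - 1) → ¬ 7 ∣ d.natDegree → ¬ 7 ∣ Nat.card k - 1 →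
      (∀ P : k[X], Irreducible P → P ∣ d ^ 3 - 8 * d ^ 2 + 5 * d + 1 →
        ¬ 7 ∣ Nat.card k ^ P.natDegree - 1) →
      OrderBySign k (shortA (d ^ 3 - d ^ 2) (d ^ 2 - d)) (shortB (d ^ 3 - d ^ 2) (d ^ 2 - d)))

end defs

section proof

theorem vanishes_of {k K : Type} [Field k] [Finite k] [Field K] [Algebra k K] {a b : K} {r : ℕ}
    (h : HasOrder k a b r) : S.VanishesTo k a b r := by
  obtain ⟨P, hP, hPr⟩ := h
  obtain ⟨G, hG⟩ := TH943.KD.dvd_of_mult (Nat.card_pos (α := k)).ne' hPr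
  exact ⟨G, by rw [hP, hG]⟩

theorem sign_eq {k K : Type} [Field k] [Finite k] [Field K] [Algebra k K] [FF.IsFF k K] {a b : K}
    (hE : 4 * a ^ 3 + 27 * b ^ 2 ≠ 0) {r : ℕ} (hr : HasOrder k a b r) {ε : ℤ}
    (h : HasSign k a b ε) : (ε : ℚ) = (-1) ^ r := by
  obtain ⟨P, hP, hfe⟩ := h
  obtain ⟨Q, hQ, hQr⟩ := hr
  have h5 : P = Q := Polynomial.coe_injective _ (hP.symm.trans hQ)
  rw [← h5] at hQr
  have hdeg : (P.map (Int.castRingHom ℚ)).natDegree = P.natDegree :=
    Polynomial.natDegree_map_eq_of_injective Int.cast_injective P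
  have hq : (Nat.card k : ℚ) ≠ 0 := by exact_mod_cast (Nat.card_pos (α := k)).ne'
  have hP0 : P.map (Int.castRingHom ℚ) ≠ 0 := by
    rw [Ne, Polynomial.map_eq_zero_iff Int.cast_injective]
    rintro rfl
    have hu := unit_coeff (k := k) hE
    rw [hP] at hu
    simp at hu
  have h6' := TH943.LG.parity hq hP0 (ε := (ε : ℚ)) (by
    intro x hx
    rw [hdeg]
    exact hfe x hx)
  rw [hQr] at h6'
  exact h6'

theorem zero_of {K : Type} [Field K] {a b : K} {r : ℕ} (h : r = 0) :
    r = 0 ∧ (rank a b ≤ r → rank a b = r) := by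
  refine ⟨h, fun hle => le_antisymm hle ?_⟩
  rw [h]
  simp

theorem sign_of_bound {k K : Type} [Field k] [Finite k] [Field K] [Algebra k K] [FF.IsFF k K]
    {a b : K} (hE : 4 * a ^ 3 + 27 * b ^ 2 ≠ 0) {c N : ℕ}
    (hbd : ∀ m : ℕ, S.VanishesTo k a b m → m + c ≤ N) (h : N ≤ c + 1) : OrderBySign k a b := by
  intro r hr
  have h1 := hbd r (vanishes_of hr)
  refine ⟨by omega, fun hs => ?_, fun hs => ?_⟩
  · have h2 := sign_eq hE hr hs
    apply zero_of
    rcases Nat.eq_zero_or_pos r with h0 | h0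
    · exact h0
    · exfalso
      have : r = 1 := by omega
      rw [this] at h2
      norm_num at h2
  · have h2 := sign_eq hE hr hs
    rcases Nat.eq_zero_or_pos r with h0 | h0
    · exfalso
      rw [h0] at h2
      norm_num at h2
    · omega

theorem zero_of_bound {k K : Type} [Field k] [Finite k] [Field K] [Algebra k K] {l : ℕ} {a b : K}
    {N M : ℕ} (hbd : ∀ m : ℕ, S.VanishesTo k a b m → m + delta l k ≤ N)
    (hex : OrderModL l k a b N) (hNM : N ≤ M) (h : M ≤ delta l k) : OrderZero l k a b := by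
  refine ⟨fun r hr => ?_, fun Q hQ => ?_⟩
  · have h1 := hbd r (vanishes_of hr)
    exact zero_of (by omega)
  · obtain ⟨h1, h2⟩ := hex Q hQ
    have h3 : (Q.map (Int.castRingHom (ZMod l))).rootMultiplicity ((Nat.card k : ZMod l)⁻¹) = 0 := by
      omega
    intro h4
    rw [Polynomial.rootMultiplicity_eq_zero_iff] at h3
    exact h1 (h3 h4)

theorem bound_of {k K : Type} [Field k] [Finite k] [Field K] [Algebra k K] [FF.IsFF k K] {l : ℕ}
    {a b : K} (hE : 4 * a ^ 3 + 27 * b ^ 2 ≠ 0) {N M : ℕ}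
    (hbd : ∀ m : ℕ, S.VanishesTo k a b m → m + delta l k ≤ N)
    (hex : OrderModL l k a b N) (hNM : N ≤ M) : OrderBound l k a b M := by
  refine ⟨fun m hm => (hbd m hm).trans hNM, fun h => zero_of_bound hbd hex hNM h, fun h => ?_⟩
  exact sign_of_bound hE (fun m hm => (hbd m hm).trans hNM) h

theorem splitSum_eq {l : ℕ} {k K : Type} [Field k] [Field K] [Algebra k K] (a b : K) :
    splitSum l k a b = TH180.OT.splSum l k a b := by
  classical
  unfold splitSum TH180.OT.splSum
  refine finsum_congr fun v => ?_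
  congr 1
  unfold TH180.OT.spl
  by_cases h : v.ord (minDisc v a b) ≠ 0 ∧ S.trace v a b = 1
  · have h' : IsSplit v a b := h
    rw [if_pos h, if_pos h']
  · have h' : ¬ IsSplit v a b := h
    rw [if_neg h, if_neg h']

theorem factor_eq {l : ℕ} {k K : Type} [Field k] [Finite k] [Field K] [Algebra k K] [FF.IsFF k K]
    {a b : K} (hc : ∀ v : FF.Place k K, v.ord (minDisc v a b) ≠ 0 → S.trace v a b = 1 ∨
      S.trace v a b = -1) (v : FF.Place k K) : placeFactor l v a b = TH180.OT.fac l v a b := by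
  classical
  unfold placeFactor TH180.OT.fac IsSplit IsNonsplit
  by_cases h0 : v.ord (minDisc v a b) = 0
  · rw [if_neg (fun h => h.1 h0), if_neg (fun h => h.1 h0), if_pos h0]
  · rw [if_neg h0]
    rcases hc v h0 with h1 | h1
    · rw [if_pos ⟨h0, h1⟩, if_pos h1, mul_pow, C_pow]
    · have hne : S.trace v a b ≠ 1 := by
        rw [h1]; norm_num
      rw [if_neg (fun h => hne h.2), if_pos ⟨h0, h1⟩, if_neg hne]

theorem den_eq {l : ℕ} [Fact l.Prime] (c : ZMod l) :
    den l c = (1 - X) * (1 - C c * X) ^ 2 * (1 - C (c ^ 2) * X) := by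
  unfold den
  simp only [mul_comp, sub_comp, one_comp, C_comp, pow_comp, X_comp, C_1, one_mul, pow_one, C_pow]
  ring

theorem two_K {k K : Type} [Field k] [Finite k] [Field K] [Algebra k K] (h6 : (6 : k) ≠ 0) :
    (2 : K) ≠ 0 := by
  have h := two_ne h6
  have h' : (2 : k) ≠ 0 := by exact_mod_cast h
  have : (2 : K) = algebraMap k K 2 := by rw [map_ofNat]
  rw [this]
  exact (_root_.map_ne_zero _).2 h'

/-- the general part -/
theorem general (k K : Type) [Field k] [Finite k] [Field K] [Algebra k K] [FF.IsFF k K]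
    (h6 : (6 : k) ≠ 0) (hc : constDeg k K = 1) {l : ℕ} (hl : l.Prime) (hl5 : 5 ≤ l)
    (hlk : (l : k) ≠ 0) {a b : K} (hE : 4 * a ^ 3 + 27 * b ^ 2 ≠ 0) (ht : HasPointOfOrder l a b)
    {P : ℤ[X]} (hP : IsZetaNumRel k K P) :
    (∀ v : FF.Place k K, v.ord (minDisc v a b) ≠ 0 → IsSplit v a b ∨ IsNonsplit v a b) ∧
      Congruence l k a b P ∧ OrderModL l k a b (rootSum l k P + splitSum l k a b) ∧
      ∀ m : ℕ, S.VanishesTo k a b m → m + delta l k ≤ rootSum l k P + splitSum l k a b := by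
  classical
  have : Fact l.Prime := ⟨hl⟩
  obtain ⟨Q, hQ⟩ := ht
  have h2 : (2 : K) ≠ 0 := two_K h6
  obtain ⟨x, y, L, hcyc, -⟩ := TH180.OT.exists_cyc h2 Q hQ
  have hcases : ∀ v : FF.Place k K, v.ord (minDisc v a b) ≠ 0 → S.trace v a b = 1 ∨
      S.trace v a b = -1 := by
    intro v hv
    rcases TH180.OT.place_cases hl5 h6 hlk hcyc hE v with h1 | h1 | h1
    · exact absurd h1.1 hv
    · exact Or.inl h1.2
    · exact Or.inr h1.2.1
  refine ⟨fun v hv => ?_, ?_, ?_, ?_⟩
  · rcases hcases v hv with h1 | h1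
    · exact Or.inl ⟨hv, h1⟩
    · exact Or.inr ⟨hv, h1⟩
  · have h1 := TH180.OT.cong hl5 h6 hlk hcyc hE hP hc
    rw [den_eq] at h1
    unfold Congruence
    rw [finprod_congr (factor_eq hcases)]
    exact h1
  · intro R hR
    rw [splitSum_eq]
    exact TH180.OT.exact_order hl5 h6 hlk hcyc hE hP hc hR
  · intro m hm
    rw [splitSum_eq]
    exact TH180.OT.bound hl5 h6 hlk hcyc hE hP hc hm

section fam

variable {k : Type} [Field k] [Finite k]

theorem val_zero {l n : ℕ} (h : ¬ l ∣ n) : l ^ padicValNat l n = 1 := by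
  rw [padicValNat.eq_zero_of_not_dvd h, pow_zero]

open Classical in
theorem primes_irr {D : k[X]} (h : Irreducible D) : primes D = {normalize D} :=
  TH943.TT.primes_irr h

theorem mem_primes {g P : k[X]} (hg : g ≠ 0) :
    P ∈ primes g ↔ P.Monic ∧ Irreducible P ∧ P ∣ g := TH943.LG.mem_primes hg

open Classical in
theorem deg_norm {D : k[X]} (h : Irreducible D) : (normalize D).natDegree = D.natDegree :=
  natDegree_eq_of_degree_eq (degree_eq_degree_of_associated (normalize_associated D))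

theorem primeSum_eq (l : ℕ) (β γ : k[X]) : primeSum l β γ = TH180.OT.finP l β γ := rfl

theorem shortA_eq (β γ : k[X]) : shortA β γ = TH180.OT.fA β γ := rfl

theorem shortB_eq (β γ : k[X]) : shortB β γ = TH180.OT.fB β γ := rfl

open Classical in
/-- the sum over the prime factors of a product of two irreducible polynomials -/
theorem sum_two {l : ℕ} {f g : k[X]} (hf : Irreducible f) (hg : Irreducible g)
    (h1 : ¬ l ∣ f.natDegree) (h2 : ¬ l ∣ g.natDegree) :
    ∑ P ∈ primes (f * g), l ^ padicValNat l P.natDegree ≤ 2 := by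
  have hsub : primes (f * g) ⊆ {normalize f, normalize g} := by
    intro P hP
    obtain ⟨p1, p2, p3⟩ := (mem_primes (mul_ne_zero hf.ne_zero hg.ne_zero)).1 hP
    rw [Finset.mem_insert, Finset.mem_singleton]
    rcases p2.prime.dvd_or_dvd p3 with h | h
    · left
      have h4 : Associated P f := p2.associated_of_dvd hf h
      rw [← p1.normalize_eq_self]
      exact normalize_eq_normalize h4.dvd h4.symm.dvd
    · right
      have h4 : Associated P g := p2.associated_of_dvd hg h
      rw [← p1.normalize_eq_self]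
      exact normalize_eq_normalize h4.dvd h4.symm.dvd
  have h7 := Finset.sum_le_sum_of_subset (f := fun P : k[X] => l ^ padicValNat l P.natDegree) hsub
  refine h7.trans ?_
  by_cases hfg : normalize f = normalize g
  · rw [hfg, Finset.pair_eq_singleton, Finset.sum_singleton, deg_norm hg, val_zero h2]
    norm_num
  · rw [Finset.sum_pair hfg, deg_norm hg, deg_norm hf, val_zero h2, val_zero h1]

theorem rootSum_one (l : ℕ) [Fact l.Prime] : rootSum l k (1 : ℤ[X]) = 0 := by
  unfold rootSum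
  have e : ∀ x : ZMod l, ((1 : ℤ[X]).map (Int.castRingHom (ZMod l))).rootMultiplicity x = 0 := by
    intro x
    rw [Polynomial.map_one]
    apply Polynomial.rootMultiplicity_eq_zero
    simp
  rw [e, e]

/-- the general part over `k(t)` -/
theorem rat_general (h6 : (6 : k) ≠ 0) {l : ℕ} (hl : l.Prime) (hl5 : 5 ≤ l) (hlk : (l : k) ≠ 0)
    {a b : RatFunc k} (hE : 4 * a ^ 3 + 27 * b ^ 2 ≠ 0) (ht : HasPointOfOrder l a b) :
    OrderModL l k a b (splitSum l k a b) ∧
      ∀ m : ℕ, S.VanishesTo k a b m → m + delta l k ≤ splitSum l k a b := by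
  have : FF.IsFF k (RatFunc k) := (W309.RK.sb k).1
  have : Fact l.Prime := ⟨hl⟩
  obtain ⟨-, -, h3, h4⟩ := general k (RatFunc k) h6 (W309.RK.sb k).2.1 hl hl5 hlk hE ht
    ((S.isZetaNum_iff 1).1 W309.RF.isZetaNum_rat)
  rw [rootSum_one, zero_add] at h3 h4
  exact ⟨h3, h4⟩

theorem caseFive (h6 : (6 : k) ≠ 0) (h5 : (5 : k) ≠ 0) : CaseFive k := by
  classical
  intro β hβ hγ
  have : FF.IsFF k (RatFunc k) := (W309.RK.sb k).1
  have : Fact (Nat.Prime 5) := ⟨by norm_num⟩
  have h5' : ((5 : ℕ) : k) ≠ 0 := by exact_mod_cast h5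
  have hE : 4 * shortA β β ^ 3 + 27 * shortB β β ^ 2 ≠ 0 := TH180.OT.disc5 h6 hβ hγ
  obtain ⟨p, hp⟩ := TH180.OT.point5 h6 hβ hγ
  have ht : HasPointOfOrder 5 (shortA β β) (shortB β β) := ⟨_, hp⟩
  obtain ⟨hex, hbd⟩ := rat_general h6 (by norm_num) le_rfl h5' hE ht
  obtain ⟨x, y, L, hc, hns, hPt⟩ := TH180.OT.exists_cyc (TH180.OT.two_R h6) _ hp
  have hy := (WeierstrassCurve.Affine.Point.some.inj hPt).2
  have hsum : splitSum 5 k (shortA β β) (shortB β β) ≤ primeSum 5 β (β ^ 2 - 11 * β - 1) + 1 := by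
    rw [splitSum_eq]
    exact TH180.OT.splSum_fam hβ hγ hE
      (fun v hX hs => TH180.OT.hfin5 h6 h5' hβ hγ hc hy.symm v hX hs)
  refine ⟨⟨hE, ht⟩, bound_of hE hbd hex hsum, fun hi hd => ⟨fun hq hP => ?_, fun hq r s h1 h2 hr hs
    => ?_⟩⟩
  · refine zero_of_bound hbd hex hsum ?_
    have e1 : (primes (β ^ 2 - 11 * β - 1)).filter
        (fun P => 5 ∣ Nat.card k ^ P.natDegree - 1) = ∅ := by
      rw [Finset.filter_eq_empty_iff]
      intro P hPm
      obtain ⟨-, p2, p3⟩ := (mem_primes hγ).1 hPm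
      exact hP P p2 p3
    unfold primeSum delta
    rw [e1, Finset.sum_empty, primes_irr hi, Finset.sum_singleton, deg_norm hi, val_zero hd,
      if_neg hq]
    norm_num
  · refine zero_of_bound hbd hex hsum ?_
    have hdr : (β - C r).natDegree = β.natDegree := natDegree_sub_C
    have hds : (β - C s).natDegree = β.natDegree := natDegree_sub_C
    have hfac : β ^ 2 - 11 * β - 1 = (β - C r) * (β - C s) := by
      have e1 : (11 : k[X]) = C r + C s := by
        rw [← C_add, h1, map_ofNat]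
      have e2 : C r * C s = (-1 : k[X]) := by
        rw [← C_mul, h2, C_neg, C_1]
      linear_combination -β * e1 - e2
    have h3 : ∑ P ∈ (primes (β ^ 2 - 11 * β - 1)).filter
        (fun P => 5 ∣ Nat.card k ^ P.natDegree - 1), 5 ^ padicValNat 5 P.natDegree ≤ 2 := by
      refine (Finset.sum_le_sum_of_subset (Finset.filter_subset _ _)).trans ?_
      rw [hfac]
      exact sum_two hr hs (by rw [hdr]; exact hd) (by rw [hds]; exact hd)
    have h4 : ∑ P ∈ primes β, 5 ^ padicValNat 5 P.natDegree = 1 := by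
      rw [primes_irr hi, Finset.sum_singleton, deg_norm hi, val_zero hd]
    unfold primeSum delta
    rw [if_pos hq, h4]
    omega

theorem caseSeven (h6 : (6 : k) ≠ 0) (h7 : (7 : k) ≠ 0) : CaseSeven k := by
  classical
  intro d hd0 hd1 hg
  have : FF.IsFF k (RatFunc k) := (W309.RK.sb k).1
  have : Fact (Nat.Prime 7) := ⟨by norm_num⟩
  have h7' : ((7 : ℕ) : k) ≠ 0 := by exact_mod_cast h7
  have hE : 4 * shortA (d ^ 3 - d ^ 2) (d ^ 2 - d) ^ 3 +
      27 * shortB (d ^ 3 - d ^ 2) (d ^ 2 - d) ^ 2 ≠ 0 := TH180.OT.disc7 h6 hd0 hd1 hg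
  obtain ⟨p, hp⟩ := TH180.OT.point7 h6 hd0 hd1 hg
  have ht : HasPointOfOrder 7 (shortA (d ^ 3 - d ^ 2) (d ^ 2 - d))
      (shortB (d ^ 3 - d ^ 2) (d ^ 2 - d)) := ⟨_, hp⟩
  obtain ⟨hex, hbd⟩ := rat_general h6 (by norm_num) (by norm_num) h7' hE ht
  obtain ⟨x, y, L, hc, hns, hPt⟩ := TH180.OT.exists_cyc (TH180.OT.two_R h6) _ hp
  have hy := (WeierstrassCurve.Affine.Point.some.inj hPt).2
  have hsum : splitSum 7 k (shortA (d ^ 3 - d ^ 2) (d ^ 2 - d)) (shortB (d ^ 3 - d ^ 2) (d ^ 2 - d)) ≤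
      primeSum 7 (d * (d - 1)) (d ^ 3 - 8 * d ^ 2 + 5 * d + 1) + 1 := by
    rw [splitSum_eq]
    exact TH180.OT.splSum_fam (mul_ne_zero hd0 hd1) hg hE
      (fun v hX hs => TH180.OT.hfin7 h6 h7' hd0 hd1 hg hc hy.symm v hX hs)
  refine ⟨⟨hE, ht⟩, bound_of hE hbd hex hsum, fun hi hi1 hd hq hP => ?_⟩
  refine (bound_of hE hbd hex hsum).2.2 ?_
  have hdeg : (d - 1).natDegree = d.natDegree := by
    have : d - 1 = d - C 1 := by rw [C_1]
    rw [this, natDegree_sub_C]
  have e1 : (primes (d ^ 3 - 8 * d ^ 2 + 5 * d + 1)).filter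
      (fun P => 7 ∣ Nat.card k ^ P.natDegree - 1) = ∅ := by
    rw [Finset.filter_eq_empty_iff]
    intro P hPm
    obtain ⟨-, p2, p3⟩ := (mem_primes hg).1 hPm
    exact hP P p2 p3
  have e2 : ∑ P ∈ primes (d * (d - 1)), 7 ^ padicValNat 7 P.natDegree ≤ 2 :=
    sum_two hi hi1 hd (by rw [hdeg]; exact hd)
  unfold primeSum delta
  rw [e1, Finset.sum_empty, if_neg hq]
  omega

end fam

end proof

/-- Let `k` be a finite field with `q` elements of characteristic at least `5`.

(1) Let `K` be a function field over `k` with `k` as exact field of constants, `P` the numerator of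
the zeta function of `K`, `l ≥ 5` a prime different from the characteristic and
`E : y ^ 2 = x ^ 3 + a x + b` an elliptic curve over `K` with a `K`-rational point of order `l`. Put
`δ = 4` if `q` is `1` modulo `l` and `δ = 2` otherwise. Then every place of bad reduction is
multiplicative, and modulo `l`

`(1 - T) (1 - q T) ^ 2 (1 - q ^ 2 T) L(T, E) =
  P(T) P(q T) ∏_(v split) (1 - (q T) ^ deg v) ∏_(v nonsplit) (1 - T ^ deg v)`.

Let `s(E)` be the sum of `l ^ v_l(deg v)` over the split places and `ρ` the sum of the multiplicities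
of the roots `1 / q` and `1` of `P` modulo `l`. If `L(T, E)` is a polynomial then its order of
vanishing modulo `l` at `T = 1 / q` is exactly `ρ + s(E) - δ`. So the order of vanishing of `L(T, E)`
at `T = 1 / q` is at most `ρ + s(E) - δ`; if `ρ + s(E) ≤ δ` it is `0`, the value `L(1 / q, E)` is a
unit at `l` and the rank of `E(K)` is `0` (if it is at most the order); if `ρ + s(E) ≤ δ + 1` the
order is `0` or `1`, given by the sign of the functional equation.

(2) Let `K = k(t)` and `β` in `k[t]`, `β (β ^ 2 - 11 β - 1) ≠ 0`, and let the characteristic be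
different from `5`. The curve `y ^ 2 + (1 - β) x y - β y = x ^ 3 - β x ^ 2` has a point of order
five, and (1) holds with `ρ + s(E)` replaced by the larger `primeSum + 1`, the sum of
`5 ^ v_5(deg P)` over the monic irreducible factors `P` of `β` and those of `β ^ 2 - 11 β - 1` with
`q ^ deg P` equal to `1` modulo `5`, plus one. If `β` is irreducible of degree prime to `5` then the
order is `0` if `q` is not `1` modulo `5` and `q ^ deg P` is not `1` modulo `5` for all irreducible
factors `P` of `β ^ 2 - 11 β - 1`, and also if `q` is `1` modulo `5` and `β - r`, `β - s` are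
irreducible, where `r` and `s` are the roots of `x ^ 2 - 11 x - 1`.

(3) The same for the curve with `(d ^ 3 - d ^ 2, d ^ 2 - d)` in place of `(β, β)`, which has a point
of order seven (characteristic different from `7`), with the irreducible factors of `d (d - 1)` and
of `d ^ 3 - 8 d ^ 2 + 5 d + 1`. If `d` and `d - 1` are irreducible of degree prime to `7`, `q` is not
`1` modulo `7` and `q ^ deg P` is not `1` modulo `7` for all irreducible factors `P` of
`d ^ 3 - 8 d ^ 2 + 5 d + 1`, then the order is `0` or `1`, given by the sign. -/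
theorem result :
    (∀ (k K : Type) [Field k] [Finite k] [Field K] [Algebra k K] [FF.IsFF k K], (6 : k) ≠ 0 →
      constDeg k K = 1 → ∀ l : ℕ, l.Prime → 5 ≤ l → (l : k) ≠ 0 →
      ∀ a b : K, 4 * a ^ 3 + 27 * b ^ 2 ≠ 0 → HasPointOfOrder l a b →
      ∃ P : ℤ[X], IsNumerator k K P ∧
        (∀ v : FF.Place k K, v.ord (minDisc v a b) ≠ 0 → IsSplit v a b ∨ IsNonsplit v a b) ∧
        Congruence l k a b P ∧ OrderModL l k a b (rootSum l k P + splitSum l k a b) ∧
        OrderBound l k a b (rootSum l k P + splitSum l k a b)) ∧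
    ∀ (k : Type) [Field k] [Finite k], (6 : k) ≠ 0 → FF.IsFF k (RatFunc k) ∧
      constDeg k (RatFunc k) = 1 ∧ ((5 : k) ≠ 0 → CaseFive k) ∧ ((7 : k) ≠ 0 → CaseSeven k) := by
  classical
  refine ⟨?_, ?_⟩
  · intro k K _ _ _ _ _ h6 hc l hl hl5 hlk a b hE ht
    obtain ⟨P, hP, hP1⟩ := exists_num_rel k K
    obtain ⟨h1, h2, h3, h4⟩ := general k K h6 hc hl hl5 hlk hE ht hP
    exact ⟨P, ⟨(S.isZetaNum_iff P).2 hP, hP1.trans (by rw [S.classNumber_eq])⟩, h1, h2, h3,
      bound_of hE h4 h3 le_rfl⟩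
  · intro k _ _ h6
    obtain ⟨s1, s2, s3⟩ := W309.RK.sb k
    exact ⟨s1, s2, fun h5 => caseFive h6 h5, fun h7 => caseSeven h6 h7⟩

end Pool.Agent.Results.MP_ae0bd0_nt.OddTorsionPrimes
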