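import Pool.Agent.TH943.PT.Ord

/-!
Non-vanishing at `s = 1` of the L-functions of one third of the prime twists of the elliptic curve
`y ^ 2 = f(x) - t` over `k(t)`, and of the twists by the products of these primes.
-/

set_option autoImplicit false
set_option maxHeartbeats 1000000

open Polynomial

namespace Pool.Agent.Results.MP_ae0bd0_nt.PrimeTwists

/-- The closed points of the affine line over the field `F`: monic irreducible polynomials. -/
abbrev ClosedPt (F : Type) [Field F] : Type := {P : F[X] // P.Monic ∧ Irreducible P}

section generic

variable {F : Type} [Field F]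

/-- The polynomial `d (g(x) - τ)`. -/
noncomputable def twisted (g : F[X]) (d τ : F) : F[X] := C d * (g - C τ)

open Classical in
/-- The quadratic character of the field `F[x] / (Q)` at the class of `h`. -/
noncomputable def quadChar (h Q : F[X]) : ℤ :=
  if Q ∣ h then 0 else if ∃ s : F[X], Q ∣ h - s ^ 2 then 1 else -1

/-- The degree of the closed point `Q` of the line over a field `F` of degree `d`. -/
noncomputable def ptDegree (d : ℕ) (Q : ClosedPt F) : ℕ := d * Q.1.natDegree

/-- The Euler factor `1 - χ T ^ n`, where `χ` is the value of the quadratic character of the residue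
field of `Q` at `h`, and `n` is the degree of `Q`. -/
noncomputable def ptFactor (h : F[X]) (d : ℕ) (Q : ClosedPt F) : PowerSeries ℤ :=
  1 - PowerSeries.C (quadChar h Q.1) * PowerSeries.X ^ ptDegree d Q

end generic

/-- The Euler product: its coefficient of index `n` is that of the product of the factors of degree
at most `n`. -/
noncomputable def eulerProduct {ι : Type} (d : ι → ℕ) (f : ι → PowerSeries ℤ) : PowerSeries ℤ :=
  PowerSeries.mk fun n => PowerSeries.coeff n (∏ᶠ (i : ι) (_ : d i ≤ n), f i)

/-- The greatest power of two dividing `n`. -/
def twoPart (n : ℕ) : ℕ := 2 ^ padicValNat 2 n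

section defs

variable {k : Type} [Field k]

/-- The residue field of the closed point `P` of the `t`-line. -/
def Res (P : ClosedPt k) : Type := AdjoinRoot P.1

noncomputable instance resField (P : ClosedPt k) : Field (Res P) :=
  @AdjoinRoot.instField k _ P.1 ⟨P.2.2⟩

/-- The value at `P` of a polynomial in `t`. -/
noncomputable def value (P : ClosedPt k) (g : k[X]) : Res P := AdjoinRoot.mk P.1 g

/-- The inclusion of the constants in the residue field. -/
noncomputable def constants (P : ClosedPt k) : k →+* Res P := AdjoinRoot.of P.1

/-- The polynomial `D(t) (f(x) - t)` in `x` over the residue field of the closed point `P`. -/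
noncomputable def fibre (f D : k[X]) (P : ClosedPt k) : (Res P)[X] :=
  twisted (f.map (constants P)) (value P D) (value P X)

/-- The closed points of the `(t, x)`-plane with `D(t) ≠ 0`: a closed point of the `t`-line and a
closed point of the `x`-line over its residue field. -/
structure PlanePt (D : k[X]) : Type where
  place : ClosedPt k
  ndvd : ¬ place.1 ∣ D
  point : ClosedPt (Res place)

/-- The degree of a closed point of the plane. -/
noncomputable def PlanePt.deg {D : k[X]} (z : PlanePt D) : ℕ :=
  ptDegree z.place.1.natDegree z.point

/-- The Euler factor of a closed point of the plane. -/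
noncomputable def PlanePt.factor {D : k[X]} (f : k[X]) (z : PlanePt D) : PowerSeries ℤ :=
  ptFactor (fibre f D z.place) z.place.1.natDegree z.point

/-- The `L`-function in the variable `T = q ^ (-s)` of the elliptic curve `D(t) y ^ 2 = f(x) - t` over
`k(t)`: the product of `1 - χ(z) T ^ deg z` over the closed points `z` of the plane with `D(t) ≠ 0`,
where `χ(z)` is the quadratic character of the residue field of `z` at `D(t) (f(x) - t)`. The factors
with `t` in a closed point `v` of the line, of degree `n`, give
`(1 - a T ^ n + q ^ n T ^ (2 n)) ^ (-1)`, where `a` is the trace of Frobenius, if the reduction at `v`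
is good, and `(1 - a T ^ n) ^ (-1)`, where `a = ± 1`, if it is multiplicative. -/
noncomputable def Lfun (f D : k[X]) : PowerSeries ℤ :=
  eulerProduct (fun z : PlanePt D => z.deg) (fun z => z.factor f)

/-- `L(T) = (1 - q T) ^ m G(T)` with an integral polynomial `G`: the function vanishes to order at
least `m` at `s = 1`. -/
def VanishesTo (f D : k[X]) (m : ℕ) : Prop :=
  ∃ G : ℤ[X], Lfun f D = (((1 - C (Nat.card k : ℤ) * X) ^ m * G : ℤ[X]) : PowerSeries ℤ)

/-- The order of vanishing at `s = 1` is at most `r`. -/
def OrderAtMost (f D : k[X]) (r : ℕ) : Prop := ∀ m : ℕ, VanishesTo f D m → m ≤ r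

open Classical in
/-- The monic irreducible factors of a polynomial. -/
noncomputable def primes (g : k[X]) : Finset k[X] :=
  (UniqueFactorizationMonoid.normalizedFactors g).toFinset

/-- The characteristic of `k` is not two or three, and `f = x ^ 3 + a x ^ 2 + b x + c` is a monic cubic
polynomial with `a ^ 2 ≠ 3 b`; this says that the `j`-invariant of `y ^ 2 = f(x) - t` is not
constant. -/
structure IsAdmissible (f : k[X]) : Prop where
  two_ne : (2 : k) ≠ 0
  three_ne : (3 : k) ≠ 0
  monic : f.Monic
  cubic : f.natDegree = 3
  nonconstant : f.coeff 2 ^ 2 ≠ 3 * f.coeff 1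

/-- The prime `P` is inert in `k(x)` over `k(t)`, `t = f(x)`: the polynomial `P(f(x))` is
irreducible. -/
def IsInert (f P : k[X]) : Prop := Irreducible (P.comp f)

/-- The inert primes of degree `N`. -/
def inertPrimes (f : k[X]) (N : ℕ) : Set (ClosedPt k) := {P | P.1.natDegree = N ∧ IsInert f P.1}

/-- The sum of the `q ^ d` over the proper divisors `d` of `N`. -/
def properSum (q N : ℕ) : ℤ := ∑ d ∈ N.properDivisors, (q : ℤ) ^ d

/-- One third of the primes are inert: the number `n` of the inert primes of degree `N` satisfies
`|3 N n - q ^ N| ≤ 3 ∑ q ^ d + 1`, where `d` runs through the proper divisors of `N`. -/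
def OneThird (f : k[X]) : Prop :=
  ∀ N : ℕ, 0 < N → |3 * (N * (inertPrimes f N).ncard : ℤ) - (Nat.card k : ℤ) ^ N| ≤
    3 * properSum (Nat.card k) N + 1

open Classical in
/-- Twice the sum of the `2 ^ v(deg P)` over the prime factors `P` of `D` which are not inert. -/
noncomputable def bound (f D : k[X]) : ℕ :=
  2 * ∑ P ∈ (primes D).filter (fun P => ¬ IsInert f P), twoPart P.natDegree

/-- the equivalence of the two descriptions of the points of the plane -/
noncomputable def planeEquiv (D : k[X]) :
    (Σ P : {P : Pool.Agent.W313.Hyp.MI k // ¬ P.1 ∣ D},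
      Pool.Agent.W313.Hyp.MI (Pool.Agent.TH943.HJ.RF P.1)) ≃ PlanePt D where
  toFun z := ⟨z.1.1, z.1.2, z.2⟩
  invFun z := ⟨⟨z.place, z.ndvd⟩, z.point⟩
  left_inv _ := rfl
  right_inv _ := rfl

theorem Lfun_eq (f D : k[X]) : Lfun f D = Pool.Agent.TH943.HJ.LF f D := by
  unfold Lfun Pool.Agent.TH943.HJ.LF eulerProduct Pool.Agent.W343.BSD.eulerProd
  ext n
  rw [PowerSeries.coeff_mk, PowerSeries.coeff_mk]
  congr 1
  exact (finprod_comp_equiv (planeEquiv D)
    (f := fun z : PlanePt D => ∏ᶠ (_ : z.deg ≤ n), z.factor f)).symm

end defs

/-- **The rank part of the Birch and Swinnerton-Dyer conjecture for one third of the prime twists.**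

Let `k` be a finite field with `q` elements of characteristic different from `2` and `3`,
`f = x ^ 3 + a x ^ 2 + b x + c` a cubic polynomial over `k` with `a ^ 2 ≠ 3 b`, and for a squarefree
polynomial `D` over `k` let `E_D` be the elliptic curve `D(t) y ^ 2 = f(x) - t` over `K = k(t)`. Its
reduction is additive at infinity and at the places dividing `D`, so that its L-function is `Lfun`, a
polynomial in `T = q ^ (-s)`.

Let `S` be the set of the primes of `k[t]`, that is monic irreducible polynomials `P`, for which
`P(f(x))` is irreducible. The number of the primes in `S` of degree `N` is `q ^ N / (3 N)` up to a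
factor `1 + O(q ^ (- N / 2))`, so that the density of `S` is one third. The order of vanishing of
`L(E_D, s)` at `s = 1` is at most twice the sum of the `2 ^ v(deg P)` over the prime factors `P` of `D`
which are not in `S`.

In particular, if all the prime factors of `D` are in `S`, for instance if `D` is one of the primes in
`S`, then `L(E_D, s)` does not vanish at `s = 1`, so that by Tate's inequality the rank of `E_D(K)` and
the order are both zero. For the primes `P` of odd degree the order for `E_P` is at most two, so that
its mean value over the primes of degree `N` is at most `4 / 3 + O(q ^ (- N / 2))` for `N` odd. -/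
theorem result (k : Type) [Field k] [Finite k] (f : k[X]) (hf : IsAdmissible f) :
    OneThird f ∧ ∀ D : k[X], Squarefree D → OrderAtMost f D (bound f D) := by
  refine ⟨fun N hN => ?_, ?_⟩
  · have h := Pool.Agent.TH943.PT.inert_count hf.two_ne hf.three_ne hf.monic hf.cubic
      hf.nonconstant hN
    rw [Nat.cast_mul] at h
    exact h
  · rintro D hD m ⟨G, hG⟩
    have h := Pool.Agent.TH943.PT.order_le hf.two_ne hf.monic (by rw [hf.cubic]; decide)
      hD.ne_zero m G (by rw [← Lfun_eq, hG])
    rw [hf.cubic] at h
    exact h

end Pool.Agent.Results.MP_ae0bd0_nt.PrimeTwists
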