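import Pool.Agent.TH639.B3.Fam
import Pool.Agent.TH639.B3.Tors

/-!
The order of vanishing of the `L`-functions of elliptic curves with a rational point of order three
over global function fields.
-/

set_option autoImplicit false
set_option linter.all false
set_option maxHeartbeats 4000000

open Polynomial Pool.Agent.W343.BSD Pool.Agent.W313.Gr

namespace Pool.Agent.Results.MP_ae0bd0_nt.ThreeTorsionPrimes

section defs

open Classical in
/-- `E : y ^ 2 = x ^ 3 + a x + b` has a `K`-rational point of order three. -/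
def HasThreeTorsion {K : Type} [Field K] (a b : K) : Prop :=
  ∃ P : (curve a b).toAffine.Point, addOrderOf P = 3

open Classical in
/-- The contribution of a place `v` with `q_v` elements in the residue field: `0` for good or nonsplit
multiplicative reduction, `1` for split multiplicative reduction, and for additive reduction `2` or
`1` as `3` divides `q_v - 1` or not. -/
noncomputable def contribution {k K : Type} [Field k] [Field K] [Algebra k K] (v : FF.Place k K)
    (a b : K) : ℕ :=
  if v.ord (minDisc v a b) = 0 ∨ S.trace v a b = -1 then 0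
  else if S.trace v a b = 1 then 1
  else if (3 : ℤ) ∣ (Nat.card (S.Res v) : ℤ) - 1 then 2 else 1

/-- The sum over all places of the contribution times the largest power of `3` dividing the degree of
the place. -/
noncomputable def contributionSum (k : Type) {K : Type} [Field k] [Field K] [Algebra k K]
    (a b : K) : ℕ := ∑ᶠ v : FF.Place k K, contribution v a b * 3 ^ padicValNat 3 (S.deg v)

/-- `L(T) = L(T, E)` is an integral polynomial `P(T)`, of degree `N` say, and satisfies the functional
equation `T ^ N L(T ^ (-1) / q) = ε L(T / q)`. -/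
def HasSign (k : Type) {K : Type} [Field k] [Field K] [Algebra k K] (a b : K) (ε : ℤ) : Prop :=
  ∃ P : ℤ[X], S.Lfun k a b = (P : PowerSeries ℤ) ∧ ∀ x : ℚ, x ≠ 0 →
    x ^ P.natDegree * (P.map (Int.castRingHom ℚ)).eval (x * (Nat.card k : ℚ))⁻¹ =
      ε * (P.map (Int.castRingHom ℚ)).eval (x / (Nat.card k : ℚ))

/-- The order of vanishing of `L(T, E)` at `T = 1 / q` (if `L(T, E)` is a polynomial) is zero, and so
is the rank of the group of rational points, if it is at most the order. -/
def OrderZero (k : Type) {K : Type} [Field k] [Field K] [Algebra k K] (a b : K) : Prop :=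
  ∀ r : ℕ, HasOrder k a b r → r = 0 ∧ (rank a b ≤ r → rank a b = r)

/-- The order of vanishing `r` is at most one; if the functional equation holds with the sign `1`
then `r` is zero, and so is the rank if it is at most `r`; if it holds with the sign `-1` then `r` is
one. -/
def OrderBySign (k : Type) {K : Type} [Field k] [Field K] [Algebra k K] (a b : K) : Prop :=
  ∀ r : ℕ, HasOrder k a b r → r ≤ 1 ∧
    (HasSign k a b 1 → r = 0 ∧ (rank a b ≤ r → rank a b = r)) ∧
    (HasSign k a b (-1) → r = 1)

variable {k : Type} [Field k]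

/-- The coefficient `a` of the short form `y ^ 2 = x ^ 3 + a x + b` of `y ^ 2 = x ^ 3 + (α x + β) ^ 2`
(replace `x` by `x - α ^ 2 / 3`). -/
noncomputable def coeffA (α β : k[X]) : RatFunc k :=
  2 * algebraMap k[X] (RatFunc k) α * algebraMap k[X] (RatFunc k) β -
    algebraMap k[X] (RatFunc k) α ^ 4 / 3

/-- The coefficient `b` of the same short form. -/
noncomputable def coeffB (α β : k[X]) : RatFunc k :=
  algebraMap k[X] (RatFunc k) β ^ 2 -
    2 * algebraMap k[X] (RatFunc k) α ^ 3 * algebraMap k[X] (RatFunc k) β / 3 +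
    2 * algebraMap k[X] (RatFunc k) α ^ 6 / 27

open Classical in
/-- The monic irreducible factors of a polynomial. -/
noncomputable def primes (g : k[X]) : Finset k[X] :=
  (UniqueFactorizationMonoid.normalizedFactors g).toFinset

open Classical in
/-- The bound for the contributions of the finite places for `y ^ 2 = x ^ 3 + (α x + β) ^ 2`: the sum
of `3 ^ v₃(deg P)` over the monic irreducible factors `P` of `β`, twice if `P` divides `α` and
`q ^ deg P` is `1` modulo `3`, and over those of `4 α ^ 3 - 27 β` which do not divide `β` and for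
which `q ^ deg P` is `1` modulo `3`. -/
noncomputable def finitePart (α β : k[X]) : ℕ :=
  ∑ P ∈ primes β, (if P ∣ α ∧ 3 ∣ Nat.card k ^ P.natDegree - 1 then 2 else 1) *
    3 ^ padicValNat 3 P.natDegree +
  ∑ P ∈ (primes (4 * α ^ 3 - 27 * β)).filter
    (fun P => ¬ P ∣ β ∧ 3 ∣ Nat.card k ^ P.natDegree - 1), 3 ^ padicValNat 3 P.natDegree

open Classical in
/-- The bound for the contribution of the place at infinity. -/
noncomputable def infinitePart (α β : k[X]) : ℕ :=
  if β.natDegree < 3 * α.natDegree then 1
  else if 3 ∣ β.natDegree then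
    (if 3 ∣ Nat.card k - 1 ∧ (4 * α ^ 3 - 27 * β).natDegree < β.natDegree then 1 else 0)
  else if 3 ∣ Nat.card k - 1 then 2 else 1

/-- The number `δ`: it is `4` if `q` is `1` modulo `3` and otherwise `2`. -/
noncomputable def delta (k : Type) : ℕ := if 3 ∣ Nat.card k - 1 then 4 else 2

/-- The order of vanishing is at most `N - δ`; it is zero if `N ≤ δ` and given by the sign if
`N ≤ δ + 1`. -/
def OrderBound (k : Type) {K : Type} [Field k] [Field K] [Algebra k K] (a b : K) (N : ℕ) : Prop :=
  (∀ m : ℕ, S.VanishesTo k a b m → m + delta k ≤ N) ∧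
    (N ≤ delta k → OrderZero k a b) ∧ (N ≤ delta k + 1 → OrderBySign k a b)

/-- The case `q = 2` modulo `3`, `β` irreducible of degree prime to `3`, and all irreducible factors of
`4 α ^ 3 - 27 β` of odd degree. -/
def FirstFamily (α β : k[X]) : Prop :=
  IsCoprime α β → Irreducible β → ¬ 3 ∣ β.natDegree → ¬ 3 ∣ Nat.card k - 1 →
    (∀ P : k[X], Irreducible P → P ∣ 4 * α ^ 3 - 27 * β → Odd P.natDegree) →
    OrderZero k (coeffA α β) (coeffB α β)

/-- The case of irreducible `β` and `4 α ^ 3 - 27 β`, with `deg β > 3 deg α` prime to `3`. -/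
def SecondFamily (α β : k[X]) : Prop :=
  IsCoprime α β → Irreducible β → Irreducible (4 * α ^ 3 - 27 * β) →
    3 * α.natDegree < β.natDegree → ¬ 3 ∣ β.natDegree →
    (3 ∣ Nat.card k - 1 ∨ Odd β.natDegree → OrderZero k (coeffA α β) (coeffB α β)) ∧
    OrderBySign k (coeffA α β) (coeffB α β)

/-- The case `27 β = 4 c ^ 3` constant and `q = 2` modulo `3`, with `α - c` and
`α ^ 2 + c α + c ^ 2` irreducible and `deg α` prime to `3`. -/
def ThirdFamily (α β : k[X]) : Prop :=
  ∀ c : k, 27 * β = C (4 * c ^ 3) → ¬ 3 ∣ Nat.card k - 1 → Irreducible (α - C c) →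
    Irreducible (α ^ 2 + C c * α + C (c ^ 2)) → ¬ 3 ∣ α.natDegree →
    (Odd α.natDegree → OrderZero k (coeffA α β) (coeffB α β)) ∧
    OrderBySign k (coeffA α β) (coeffB α β)

end defs

section proof

theorem contributionSum_eq {k K : Type} [Field k] [Field K] [Algebra k K] (a b : K) :
    contributionSum k a b = TH639.B3.termSum k a b := rfl

theorem vanishes_of {k K : Type} [Field k] [Finite k] [Field K] [Algebra k K] {a b : K} {r : ℕ}
    (h : HasOrder k a b r) : S.VanishesTo k a b r := by
  obtain ⟨P, hP, hPr⟩ := h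
  obtain ⟨G, hG⟩ := TH943.KD.dvd_of_mult (Nat.card_pos (α := k)).ne' hPr
  exact ⟨G, by rw [hP, hG]⟩

theorem sign_eq {k K : Type} [Field k] [Finite k] [Field K] [Algebra k K] [FF.IsFF k K] {a b : K}
    (hE : 4 * a ^ 3 + 27 * b ^ 2 ≠ 0) {r : ℕ} (hr : HasOrder k a b r) {ε : ℤ}
    (h : HasSign k a b ε) : (ε : ℚ) = (-1) ^ r := by
  obtain ⟨P, hP, hfe⟩ := h
  obtain ⟨Q, hQ, hQr⟩ := hr
  have h5 : P = Q := Polynomial.coe_injective _ (hP.symm.trans hQ)
  rw [← h5] at hQr
  have hdeg : (P.map (Int.castRingHom ℚ)).natDegree = P.natDegree :=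
    Polynomial.natDegree_map_eq_of_injective Int.cast_injective P
  have hq : (Nat.card k : ℚ) ≠ 0 := by exact_mod_cast (Nat.card_pos (α := k)).ne'
  have hP0 : P.map (Int.castRingHom ℚ) ≠ 0 := by
    rw [Ne, Polynomial.map_eq_zero_iff Int.cast_injective]
    rintro rfl
    have hu := unit_coeff (k := k) hE
    rw [hP] at hu
    simp at hu
  have h6' := TH943.LG.parity hq hP0 (ε := (ε : ℚ)) (by
    intro x hx
    rw [hdeg]
    exact hfe x hx)
  rw [hQr] at h6'
  exact h6'

theorem zero_of {K : Type} [Field K] {a b : K} {r : ℕ} (h : r = 0) :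
    r = 0 ∧ (rank a b ≤ r → rank a b = r) := by
  refine ⟨h, fun hle => le_antisymm hle ?_⟩
  rw [h]
  simp

theorem zero_of_bound {k K : Type} [Field k] [Finite k] [Field K] [Algebra k K] {a b : K} {c N : ℕ}
    (hbd : ∀ m : ℕ, S.VanishesTo k a b m → m + c ≤ N) (h : N ≤ c) : OrderZero k a b := by
  intro r hr
  have h1 := hbd r (vanishes_of hr)
  exact zero_of (by omega)

theorem sign_of_bound {k K : Type} [Field k] [Finite k] [Field K] [Algebra k K] [FF.IsFF k K]
    {a b : K} (hE : 4 * a ^ 3 + 27 * b ^ 2 ≠ 0) {c N : ℕ}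
    (hbd : ∀ m : ℕ, S.VanishesTo k a b m → m + c ≤ N) (h : N ≤ c + 1) : OrderBySign k a b := by
  intro r hr
  have h1 := hbd r (vanishes_of hr)
  refine ⟨by omega, fun hs => ?_, fun hs => ?_⟩
  · have h2 := sign_eq hE hr hs
    apply zero_of
    rcases Nat.eq_zero_or_pos r with h0 | h0
    · exact h0
    · exfalso
      have : r = 1 := by omega
      rw [this] at h2
      norm_num at h2
  · have h2 := sign_eq hE hr hs
    rcases Nat.eq_zero_or_pos r with h0 | h0
    · exfalso
      rw [h0] at h2
      norm_num at h2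
    · omega

theorem hasThree_of {K : Type} [Field K] (h2 : (2 : K) ≠ 0) (h3 : (3 : K) ≠ 0) {a b α β : K}
    (hβ : β ≠ 0) (h : TH639.B3.IsT3 a b α β) : HasThreeTorsion a b := by
  classical
  exact TH639.B3.order_of_isT3 h2 h3 hβ h

theorem two_ne' {k : Type} [Field k] [Finite k] (h6 : (6 : k) ≠ 0) : (2 : k) ≠ 0 := by
  have := two_ne h6
  exact_mod_cast this

theorem two_K {k K : Type} [Field k] [Finite k] [Field K] [Algebra k K] (h6 : (6 : k) ≠ 0) :
    (2 : K) ≠ 0 := by
  have h := two_ne' h6
  have : (2 : K) = algebraMap k K 2 := by rw [map_ofNat]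
  rw [this]
  exact (_root_.map_ne_zero _).2 h

theorem general (k K : Type) [Field k] [Finite k] [Field K] [Algebra k K] [FF.IsFF k K]
    (h6 : (6 : k) ≠ 0) (hc : constDeg k K = 1) {a b : K}
    (hE : 4 * a ^ 3 + 27 * b ^ 2 ≠ 0) (ht : HasThreeTorsion a b) :
    ∃ P : ℤ[X], IsNumerator k K P ∧
      OrderBound k a b (rootSum 3 k P + contributionSum k a b) := by
  classical
  obtain ⟨Q, hQ⟩ := ht
  have h2 : (2 : K) ≠ 0 := two_K h6
  obtain ⟨α, β, hβ, hT⟩ := TH639.B3.isT3_of_order h2 Q hQ
  obtain ⟨P, hP, hP1⟩ := exists_num_rel k K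
  have hbd : ∀ m : ℕ, S.VanishesTo k a b m →
        m + delta k ≤ rootSum 3 k P + contributionSum k a b :=
    fun m hm => TH639.B3.bound h6 hT hE hP hc hm
  exact ⟨P, ⟨(S.isZetaNum_iff P).2 hP, hP1.trans (by rw [S.classNumber_eq])⟩, hbd,
    fun h => zero_of_bound hbd h, fun h => sign_of_bound hE hbd h⟩

section fam

variable {k : Type} [Field k] [Finite k]

theorem val_zero {n : ℕ} (h : ¬ 3 ∣ n) : 3 ^ padicValNat 3 n = 1 := by
  rw [padicValNat.eq_zero_of_not_dvd h, pow_zero]

/-- powers of a number which is two modulo three -/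
theorem odd_pow {q n : ℕ} (hq : q % 3 = 2) (hn : Odd n) : ¬ 3 ∣ q ^ n - 1 := by
  obtain ⟨j, rfl⟩ := hn
  have h1 : q ^ (2 * j + 1) % 3 = 2 := by
    rw [pow_succ, pow_mul, Nat.mul_mod, Nat.pow_mod, Nat.pow_mod q 2, hq]
    norm_num
  omega

theorem card_mod (h6 : (6 : k) ≠ 0) : Nat.card k % 3 ≠ 0 := by
  have h3 : ((3 : ℕ) : k) ≠ 0 := three_ne h6
  have : Fact (Nat.Prime 3) := ⟨Nat.prime_three⟩
  have hq := card_ne_zero_mod (k := k) h3
  intro h
  exact hq ((ZMod.natCast_eq_zero_iff _ _).2 (Nat.dvd_of_mod_eq_zero h))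

theorem card_two (h6 : (6 : k) ≠ 0) (h : ¬ 3 ∣ Nat.card k - 1) : Nat.card k % 3 = 2 := by
  have := card_mod h6
  have hpos : 1 ≤ Nat.card k := Nat.card_pos
  omega

open Classical in
theorem primes_irr {D : k[X]} (h : Irreducible D) : primes D = {normalize D} :=
  TH943.TT.primes_irr h

theorem mem_primes {g P : k[X]} (hg : g ≠ 0) :
    P ∈ primes g ↔ P.Monic ∧ Irreducible P ∧ P ∣ g := TH943.LG.mem_primes hg

open Classical in
theorem deg_norm {D : k[X]} (h : Irreducible D) : (normalize D).natDegree = D.natDegree :=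
  natDegree_eq_of_degree_eq (degree_eq_degree_of_associated (normalize_associated D))

open Classical in
/-- the first sum for an irreducible `β` -/
theorem first_irr {α β : k[X]} (hcop : IsCoprime α β) (hβ : Irreducible β)
    (h3 : ¬ 3 ∣ β.natDegree) : ∑ P ∈ primes β,
      (if P ∣ α ∧ 3 ∣ Nat.card k ^ P.natDegree - 1 then 2 else 1) *
        3 ^ padicValNat 3 P.natDegree = 1 := by
  classical
  rw [primes_irr hβ, Finset.sum_singleton, deg_norm hβ, val_zero h3, mul_one, if_neg]
  rintro ⟨h1, -⟩
  have h2 : β ∣ α := (normalize_associated β).symm.dvd.trans h1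
  exact hβ.not_isUnit (hcop.isUnit_of_dvd' h2 dvd_rfl)

/-- the second sum for an irreducible polynomial -/
theorem second_irr {γ : k[X]} (hγ : Irreducible γ) (h3 : ¬ 3 ∣ γ.natDegree) (p : k[X] → Prop)
    [DecidablePred p] : ∑ P ∈ (primes γ).filter p, 3 ^ padicValNat 3 P.natDegree ≤ 1 := by
  classical
  refine (Finset.sum_le_sum_of_subset (Finset.filter_subset _ _)).trans ?_
  rw [primes_irr hγ, Finset.sum_singleton, deg_norm hγ, val_zero h3]

open Classical in
theorem second_odd {α β : k[X]} (hγ : 4 * α ^ 3 - 27 * β ≠ 0) (hq : Nat.card k % 3 = 2)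
    (h : ∀ P : k[X], Irreducible P → P ∣ 4 * α ^ 3 - 27 * β → Odd P.natDegree) :
    (primes (4 * α ^ 3 - 27 * β)).filter
    (fun P => ¬ P ∣ β ∧ 3 ∣ Nat.card k ^ P.natDegree - 1) = ∅ := by
  classical
  rw [Finset.filter_eq_empty_iff]
  rintro P hP ⟨-, h2⟩
  have h1 := (mem_primes hγ).1 hP
  exact odd_pow hq (h P h1.2.1 h1.2.2) h2

theorem c27 (h6 : (6 : k) ≠ 0) : (27 : k) ≠ 0 := by
  have : (27 : k) = 3 ^ 3 := by norm_num
  rw [this]
  exact pow_ne_zero 3 (TH639.B3.h3_of h6)

theorem deg_27 (h6 : (6 : k) ≠ 0) (β : k[X]) : (27 * β).natDegree = β.natDegree := by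
  have : (27 : k[X]) = C 27 := by rw [map_ofNat]
  rw [this, natDegree_C_mul (c27 h6)]

theorem deg_4 (h6 : (6 : k) ≠ 0) (β : k[X]) : (4 * β).natDegree = β.natDegree :=
  TH943.TT.natDegree_four_mul (two_ne' h6) β

theorem infinitePart_le (α β : k[X]) (h : ¬ 3 ∣ β.natDegree) :
    infinitePart α β ≤ if 3 ∣ Nat.card k - 1 then 2 else 1 := by
  classical
  unfold infinitePart
  rw [if_neg h]
  split_ifs <;> omega

end fam

end proof

/-- Let `k` be a finite field with `q` elements of characteristic at least `5`; put `δ = 4` if `q` is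
`1` modulo `3` and `δ = 2` if it is `2` modulo `3`.

(1) Let `K` be a function field over `k` with `k` as exact field of constants and
`E : y ^ 2 = x ^ 3 + a x + b` an elliptic curve over `K` with a `K`-rational point of order three. Let
`s(E) = ∑ c_v 3 ^ v₃(deg v)`, where `c_v` is `0` for good and nonsplit multiplicative, `1` for split
multiplicative, and for additive reduction `2` or `1` as `q_v` is `1` modulo `3` or not. Let `P` be the
numerator of the zeta function of `K` and `ρ` the sum of the multiplicities of the roots `1 / q` and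
`1` of `P` modulo `3`. Then `L(T, E)` vanishes at `T = 1 / q` to order at most `ρ + s(E) - δ`. If
`ρ + s(E) ≤ δ` the order and (if it is at most the order) the rank are `0`; if `ρ + s(E) ≤ δ + 1` the
order is `0` or `1`, given by the sign of the functional equation.

(2) Let `K = k(t)`, `α, β` in `k[t]`, `γ = 4 α ^ 3 - 27 β` and `β γ ≠ 0`. The curve
`E : y ^ 2 = x ^ 3 + (α x + β) ^ 2` has a point of order three, and the order is at most
`finitePart + infinitePart - δ`, which depends only on the monic irreducible factors of `β` and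
`γ`.

(3) Let also `α` and `β` be coprime. (i) The order is `0` if `q` is `2` modulo `3`, `β` is irreducible
of degree prime to `3` and all irreducible factors of `γ` have odd degree. (ii) If `β` and `γ` are
irreducible and `deg β > 3 deg α` is prime to `3`, then the order is `0` if `q` is `1` modulo `3` or
`deg β` is odd, and in the other case it is `0` or `1`, given by the sign. (iii) If `27 β = 4 c ^ 3`
is constant, `q` is `2` modulo `3`, `α - c` and `α ^ 2 + c α + c ^ 2` are irreducible and `deg α` is
prime to `3`, then the order is `0` if `deg α` is odd, and `0` or `1`, given by the sign, if it is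
even. -/
theorem result :
    (∀ (k K : Type) [Field k] [Finite k] [Field K] [Algebra k K] [FF.IsFF k K], (6 : k) ≠ 0 →
      constDeg k K = 1 → ∀ a b : K, 4 * a ^ 3 + 27 * b ^ 2 ≠ 0 → HasThreeTorsion a b →
      ∃ P : ℤ[X], IsNumerator k K P ∧
        OrderBound k a b (rootSum 3 k P + contributionSum k a b)) ∧
    ∀ (k : Type) [Field k] [Finite k], (6 : k) ≠ 0 → FF.IsFF k (RatFunc k) ∧
      constDeg k (RatFunc k) = 1 ∧
      ∀ α β : k[X], β ≠ 0 → 4 * α ^ 3 - 27 * β ≠ 0 →
      (4 * coeffA α β ^ 3 + 27 * coeffB α β ^ 2 ≠ 0 ∧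
        HasThreeTorsion (coeffA α β) (coeffB α β)) ∧
      OrderBound k (coeffA α β) (coeffB α β) (finitePart α β + infinitePart α β) ∧
      FirstFamily α β ∧ SecondFamily α β ∧ ThirdFamily α β := by
  classical
  refine ⟨?_, ?_⟩
  · intro k K _ _ _ _ _ h6 hc a b hE ht
    exact general k K h6 hc hE ht
  · intro k _ _ h6
    obtain ⟨s1, s2, s3⟩ := W309.RK.sb k
    refine ⟨s1, s2, ?_⟩
    intro α β hβ hγ
    have h3R : (3 : RatFunc k) ≠ 0 := W309.RK.three_K (k := k) h6
    have h2R : (2 : RatFunc k) ≠ 0 := two_K h6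
    have hE : 4 * coeffA α β ^ 3 + 27 * coeffB α β ^ 2 ≠ 0 := TH639.B3.disc_ne h3R hβ hγ
    have hbd' : ∀ m : ℕ, S.VanishesTo k (coeffA α β) (coeffB α β) m →
        m + delta k ≤ finitePart α β + infinitePart α β :=
      fun m hm => TH639.B3.bound_fam h6 hβ hγ hm
    have hbd : ∀ m : ℕ, S.VanishesTo k (coeffA α β) (coeffB α β) m →
        m + (if 3 ∣ Nat.card k - 1 then 4 else 2) ≤ finitePart α β + infinitePart α β := hbd'
    refine ⟨⟨hE, ?_⟩, ⟨hbd', fun h => zero_of_bound hbd' h, fun h => sign_of_bound hE hbd' h⟩,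
      ?_, ?_, ?_⟩
    · exact hasThree_of h2R h3R (W309.RF.A_ne hβ) (TH639.B3.isT3_fam h3R α β)
    · intro hcop hi h3 hq hodd
      apply zero_of_bound hbd
      have hq2 := card_two h6 hq
      have h1 := infinitePart_le α β h3
      unfold finitePart
      rw [first_irr hcop hi h3, second_odd hγ hq2 hodd, Finset.sum_empty]
      rw [if_neg hq] at h1 ⊢
      omega
    · intro hcop hi hi2 hlt h3
      have h1 := infinitePart_le α β h3
      have hdeg : (4 * α ^ 3 - 27 * β).natDegree = β.natDegree := by
        have h8 : (4 * α ^ 3).natDegree < (27 * β).natDegree := by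
          rw [deg_27 h6, deg_4 h6, natDegree_pow]
          exact hlt
        rw [natDegree_sub_eq_right_of_natDegree_lt h8, deg_27 h6]
      have h2 : ∑ P ∈ (primes (4 * α ^ 3 - 27 * β)).filter
          (fun P => ¬ P ∣ β ∧ 3 ∣ Nat.card k ^ P.natDegree - 1),
          3 ^ padicValNat 3 P.natDegree ≤ 1 := second_irr hi2 (by rw [hdeg]; exact h3) _
      have hf : finitePart α β = 1 + ∑ P ∈ (primes (4 * α ^ 3 - 27 * β)).filter
          (fun P => ¬ P ∣ β ∧ 3 ∣ Nat.card k ^ P.natDegree - 1), 3 ^ padicValNat 3 P.natDegree := by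
        unfold finitePart
        rw [first_irr hcop hi h3]
      refine ⟨fun hor => ?_, ?_⟩
      · by_cases hq : 3 ∣ Nat.card k - 1
        · apply zero_of_bound hbd
          rw [if_pos hq] at h1 ⊢
          rw [hf]
          omega
        · have hodd := hor.resolve_left hq
          apply zero_of_bound hbd
          have hq2 := card_two h6 hq
          rw [hf, second_odd hγ hq2, Finset.sum_empty]
          · rw [if_neg hq] at h1 ⊢
            omega
          · intro P hP hPd
            have h5 : Associated P (4 * α ^ 3 - 27 * β) := hP.associated_of_dvd hi2 hPd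
            rw [natDegree_eq_of_degree_eq (degree_eq_degree_of_associated h5), hdeg]
            exact hodd
      · apply sign_of_bound hE hbd
        rw [hf]
        split_ifs at h1 ⊢ <;> omega
    · intro c hc hq hi1 hi2 h3
      have hq2 := card_two h6 hq
      have hβ0 : β.natDegree = 0 := by
        rw [← deg_27 h6, hc, natDegree_C]
      have hfac : 4 * α ^ 3 - 27 * β = C 4 * ((α - C c) * (α ^ 2 + C c * α + C (c ^ 2))) := by
        rw [hc]
        have : (C (4 : k) : k[X]) = 4 := by rw [map_ofNat]
        rw [C_mul, C_pow, C_pow, this]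
        ring
      have hαpos : 0 < α.natDegree := by
        rcases Nat.eq_zero_or_pos α.natDegree with h | h
        · exact absurd (by rw [h]; exact dvd_zero 3) h3
        · exact h
      have hd1 : (α - C c).natDegree = α.natDegree := natDegree_sub_C
      have hd2 : (α ^ 2 + C c * α + C (c ^ 2)).natDegree = 2 * α.natDegree := by
        rw [natDegree_add_C]
        have h8 : (C c * α).natDegree < (α ^ 2).natDegree := by
          refine lt_of_le_of_lt (natDegree_C_mul_le _ _) ?_
          rw [natDegree_pow]
          omega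
        rw [natDegree_add_eq_left_of_natDegree_lt h8, natDegree_pow]
      have hinf : infinitePart α β = 1 := by
        unfold infinitePart
        rw [if_pos]
        rw [hβ0]
        omega
      have hfirst : ∑ P ∈ primes β, (if P ∣ α ∧ 3 ∣ Nat.card k ^ P.natDegree - 1 then 2 else 1) *
          3 ^ padicValNat 3 P.natDegree = 0 := by
        have h9 : primes β = ∅ := TH943.TT.primes_const hβ hβ0
        rw [h9, Finset.sum_empty]
      have h4u : IsUnit (C (4 : k)) := by
        rw [isUnit_C]
        have h2 := two_ne' h6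
        have : (4 : k) = 2 ^ 2 := by norm_num
        rw [this]
        exact (pow_ne_zero 2 h2).isUnit
      -- the monic irreducible factors
      have hmem : ∀ P ∈ primes (4 * α ^ 3 - 27 * β), P = normalize (α - C c) ∨
          P = normalize (α ^ 2 + C c * α + C (c ^ 2)) := by
        intro P hP
        obtain ⟨p1, p2, p3⟩ := (mem_primes hγ).1 hP
        rw [hfac] at p3
        have p4 : P ∣ (α - C c) * (α ^ 2 + C c * α + C (c ^ 2)) := by
          rcases p2.prime.dvd_or_dvd p3 with h | h
          · exact absurd (isUnit_of_dvd_unit h h4u) p2.not_isUnit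
          · exact h
        rcases p2.prime.dvd_or_dvd p4 with h | h
        · left
          have h4 : Associated P (α - C c) := p2.associated_of_dvd hi1 h
          rw [← p1.normalize_eq_self]
          exact normalize_eq_normalize h4.dvd h4.symm.dvd
        · right
          have h4 : Associated P (α ^ 2 + C c * α + C (c ^ 2)) := p2.associated_of_dvd hi2 h
          rw [← p1.normalize_eq_self]
          exact normalize_eq_normalize h4.dvd h4.symm.dvd
      have h32 : ¬ 3 ∣ 2 * α.natDegree := by omega
      have hv1 : 3 ^ padicValNat 3 (normalize (α - C c)).natDegree = 1 := by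
        rw [deg_norm hi1, hd1, val_zero h3]
      have hv2 : 3 ^ padicValNat 3 (normalize (α ^ 2 + C c * α + C (c ^ 2))).natDegree = 1 := by
        rw [deg_norm hi2, hd2, val_zero h32]
      have hf : finitePart α β = ∑ P ∈ (primes (4 * α ^ 3 - 27 * β)).filter
          (fun P => ¬ P ∣ β ∧ 3 ∣ Nat.card k ^ P.natDegree - 1), 3 ^ padicValNat 3 P.natDegree := by
        unfold finitePart
        rw [hfirst, zero_add]
      refine ⟨fun hodd => ?_, ?_⟩
      · apply zero_of_bound hbd
        rw [hf, hinf, if_neg hq]
        have hsub : (primes (4 * α ^ 3 - 27 * β)).filter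
            (fun P => ¬ P ∣ β ∧ 3 ∣ Nat.card k ^ P.natDegree - 1) ⊆
            {normalize (α ^ 2 + C c * α + C (c ^ 2))} := by
          intro P hP
          rw [Finset.mem_filter] at hP
          rw [Finset.mem_singleton]
          rcases hmem P hP.1 with h | h
          · exfalso
            have h5 := hP.2.2
            rw [h, deg_norm hi1, hd1] at h5
            exact odd_pow hq2 hodd h5
          · exact h
        have h7 := Finset.sum_le_sum_of_subset (f := fun P : k[X] => 3 ^ padicValNat 3 P.natDegree)
          hsub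
        rw [Finset.sum_singleton, hv2] at h7
        omega
      · apply sign_of_bound hE hbd
        rw [hf, hinf, if_neg hq]
        have hsub : (primes (4 * α ^ 3 - 27 * β)).filter
            (fun P => ¬ P ∣ β ∧ 3 ∣ Nat.card k ^ P.natDegree - 1) ⊆
            {normalize (α - C c), normalize (α ^ 2 + C c * α + C (c ^ 2))} := by
          intro P hP
          rw [Finset.mem_filter] at hP
          rw [Finset.mem_insert, Finset.mem_singleton]
          exact hmem P hP.1
        have hne : normalize (α - C c) ≠ normalize (α ^ 2 + C c * α + C (c ^ 2)) := by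
          intro h
          have h5 := congrArg natDegree h
          rw [deg_norm hi1, deg_norm hi2, hd1, hd2] at h5
          omega
        have h7 := Finset.sum_le_sum_of_subset (f := fun P : k[X] => 3 ^ padicValNat 3 P.natDegree)
          hsub
        rw [Finset.sum_pair hne, hv1, hv2] at h7
        omega

end Pool.Agent.Results.MP_ae0bd0_nt.ThreeTorsionPrimes
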