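import Pool.Agent.TH943.TT.Fam

/-!
The order of vanishing of the `L`-functions of elliptic curves with a rational point of order two over
global function fields.
-/

set_option autoImplicit false
set_option linter.all false
set_option maxHeartbeats 4000000

open Polynomial Pool.Agent.W343.BSD Pool.Agent.W313.Gr

namespace Pool.Agent.Results.MP_ae0bd0_nt.TwoTorsionPrimes

section defs

open Classical in
/-- The exponent of the conductor of `y ^ 2 = x ^ 3 + a x + b` at a place: `0`, `1`, `2` for good,
multiplicative, additive reduction. -/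
noncomputable def exponent {k K : Type} [Field k] [Field K] [Algebra k K] (v : FF.Place k K)
    (a b : K) : ℕ :=
  if v.ord (minDisc v a b) = 0 then 0
  else if minA v a b ≠ 0 ∧ v.ord (minA v a b) = 0 then 1 else 2

/-- The sum over all places of the exponent of the conductor times the largest power of `2` dividing
the degree of the place. -/
noncomputable def conductorSum (k : Type) {K : Type} [Field k] [Field K] [Algebra k K] (a b : K) :
    ℕ := ∑ᶠ v : FF.Place k K, exponent v a b * 2 ^ padicValNat 2 (S.deg v)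

/-- `L(T) = L(T, E)` is an integral polynomial `P(T)`, of degree `N` say, and satisfies the functional
equation `T ^ N L(T ^ (-1) / q) = ε L(T / q)`. -/
def HasSign (k : Type) {K : Type} [Field k] [Field K] [Algebra k K] (a b : K) (ε : ℤ) : Prop :=
  ∃ P : ℤ[X], S.Lfun k a b = (P : PowerSeries ℤ) ∧ ∀ x : ℚ, x ≠ 0 →
    x ^ P.natDegree * (P.map (Int.castRingHom ℚ)).eval (x * (Nat.card k : ℚ))⁻¹ =
      ε * (P.map (Int.castRingHom ℚ)).eval (x / (Nat.card k : ℚ))

/-- The order of vanishing of `L(T, E)` at `T = 1 / q` (if `L(T, E)` is a polynomial) is zero, and so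
is the rank of the group of rational points, if it is at most the order. -/
def OrderZero (k : Type) {K : Type} [Field k] [Field K] [Algebra k K] (a b : K) : Prop :=
  ∀ r : ℕ, HasOrder k a b r → r = 0 ∧ (rank a b ≤ r → rank a b = r)

/-- The order of vanishing `r` is at most one; if the functional equation holds with the sign `1`
then `r` is zero, and so is the rank if it is at most `r`; if it holds with the sign `-1` then `r` is
one. -/
def OrderBySign (k : Type) {K : Type} [Field k] [Field K] [Algebra k K] (a b : K) : Prop :=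
  ∀ r : ℕ, HasOrder k a b r → r ≤ 1 ∧
    (HasSign k a b 1 → r = 0 ∧ (rank a b ≤ r → rank a b = r)) ∧
    (HasSign k a b (-1) → r = 1)

variable {k : Type} [Field k]

/-- The coefficient `a` of the short form `y ^ 2 = x ^ 3 + a x + b` of `y ^ 2 = x (x ^ 2 + α x + β)`
(replace `x` by `x - α / 3`). -/
noncomputable def coeffA (α β : k[X]) : RatFunc k :=
  algebraMap k[X] (RatFunc k) β - algebraMap k[X] (RatFunc k) α ^ 2 / 3

/-- The coefficient `b` of the same short form. -/
noncomputable def coeffB (α β : k[X]) : RatFunc k :=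
  2 * algebraMap k[X] (RatFunc k) α ^ 3 / 27 -
    algebraMap k[X] (RatFunc k) α * algebraMap k[X] (RatFunc k) β / 3

open Classical in
/-- The monic irreducible factors of a polynomial. -/
noncomputable def primes (g : k[X]) : Finset k[X] :=
  (UniqueFactorizationMonoid.normalizedFactors g).toFinset

/-- The contribution of the place at infinity for `y ^ 2 = x (x ^ 2 + α x + β)`. -/
noncomputable def atInfinity (α β : k[X]) : ℕ :=
  if Even α.natDegree ∧ β.natDegree ≤ 2 * α.natDegree then
    (if β.natDegree = 2 * α.natDegree ∧ (α ^ 2 - 4 * β).natDegree = 2 * α.natDegree then 0 else 1)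
  else if 4 ∣ β.natDegree ∧ 2 * α.natDegree < β.natDegree then 0 else 2

end defs

section proof

theorem conductorSum_eq {k K : Type} [Field k] [Field K] [Algebra k K] (a b : K) :
    conductorSum k a b = condSum k a b := rfl

theorem vanishes_of {k K : Type} [Field k] [Finite k] [Field K] [Algebra k K] {a b : K} {r : ℕ}
    (h : HasOrder k a b r) : S.VanishesTo k a b r := by
  obtain ⟨P, hP, hPr⟩ := h
  obtain ⟨G, hG⟩ := TH943.KD.dvd_of_mult (Nat.card_pos (α := k)).ne' hPr
  exact ⟨G, by rw [hP, hG]⟩

theorem sign_eq {k K : Type} [Field k] [Finite k] [Field K] [Algebra k K] [FF.IsFF k K] {a b : K}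
    (hE : 4 * a ^ 3 + 27 * b ^ 2 ≠ 0) {r : ℕ} (hr : HasOrder k a b r) {ε : ℤ}
    (h : HasSign k a b ε) : (ε : ℚ) = (-1) ^ r := by
  obtain ⟨P, hP, hfe⟩ := h
  obtain ⟨Q, hQ, hQr⟩ := hr
  have h5 : P = Q := Polynomial.coe_injective _ (hP.symm.trans hQ)
  rw [← h5] at hQr
  have hdeg : (P.map (Int.castRingHom ℚ)).natDegree = P.natDegree :=
    Polynomial.natDegree_map_eq_of_injective Int.cast_injective P
  have hq : (Nat.card k : ℚ) ≠ 0 := by exact_mod_cast (Nat.card_pos (α := k)).ne'
  have hP0 : P.map (Int.castRingHom ℚ) ≠ 0 := by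
    rw [Ne, Polynomial.map_eq_zero_iff Int.cast_injective]
    rintro rfl
    have hu := unit_coeff (k := k) hE
    rw [hP] at hu
    simp at hu
  have h6' := TH943.LG.parity hq hP0 (ε := (ε : ℚ)) (by
    intro x hx
    rw [hdeg]
    exact hfe x hx)
  rw [hQr] at h6'
  exact h6'

theorem zero_of {K : Type} [Field K] {a b : K} {r : ℕ} (h : r = 0) : r = 0 ∧ (rank a b ≤ r → rank a b = r) := by
  refine ⟨h, fun hle => le_antisymm hle ?_⟩
  rw [h]
  simp

theorem general (k K : Type) [Field k] [Finite k] [Field K] [Algebra k K] [FF.IsFF k K]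
    (h6 : (6 : k) ≠ 0) (hc : constDeg k K = 1) (hodd : Odd (S.classNumber k K)) {a b t : K}
    (hE : 4 * a ^ 3 + 27 * b ^ 2 ≠ 0) (ht : t ^ 3 + a * t + b = 0) :
    (∀ m : ℕ, S.VanishesTo k a b m → m + 4 ≤ conductorSum k a b) ∧
      (conductorSum k a b ≤ 4 → OrderZero k a b) ∧
      (conductorSum k a b ≤ 5 → OrderBySign k a b) := by
  have hbd : ∀ m : ℕ, S.VanishesTo k a b m → m + 4 ≤ conductorSum k a b := fun m hm =>
    TH943.TT.bound_two h6 hE ht hc hodd hm
  refine ⟨hbd, fun h4 r hr => ?_, fun h5 r hr => ?_⟩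
  · have h1 := hbd r (vanishes_of hr)
    exact zero_of (by omega)
  · have h1 := hbd r (vanishes_of hr)
    refine ⟨by omega, fun hs => ?_, fun hs => ?_⟩
    · have h2 := sign_eq hE hr hs
      apply zero_of
      rcases Nat.eq_zero_or_pos r with h0 | h0
      · exact h0
      · exfalso
        have : r = 1 := by omega
        rw [this] at h2
        norm_num at h2
    · have h2 := sign_eq hE hr hs
      rcases Nat.eq_zero_or_pos r with h0 | h0
      · exfalso
        rw [h0] at h2
        norm_num at h2
      · omega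

variable {k : Type} [Field k] [Finite k]

theorem three_ne' (h6 : (6 : k) ≠ 0) : (3 : k) ≠ 0 := by
  have := three_ne h6
  exact_mod_cast this

theorem two_ne' (h6 : (6 : k) ≠ 0) : (2 : k) ≠ 0 := by
  have := two_ne h6
  exact_mod_cast this

theorem coeffA_eq (h6 : (6 : k) ≠ 0) (α β : k[X]) :
    coeffA α β = W309.RF.A (TH943.TT.aP α β) := by
  have h3 : (3 : RatFunc k) ≠ 0 := W309.RK.three_K (k := k) h6
  have h1 := congrArg (algebraMap k[X] (RatFunc k)) (TH943.TT.three_aP (three_ne' h6) α β)
  simp only [map_mul, map_sub, map_pow, map_ofNat] at h1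
  unfold coeffA
  show _ = algebraMap k[X] (RatFunc k) _
  apply mul_left_cancel₀ h3
  rw [h1]
  field_simp

theorem coeffB_eq (h6 : (6 : k) ≠ 0) (α β : k[X]) :
    coeffB α β = W309.RF.A (TH943.TT.bP α β) := by
  have h3 : (3 : RatFunc k) ≠ 0 := W309.RK.three_K (k := k) h6
  have h27 : (27 : RatFunc k) ≠ 0 := by
    have : (27 : RatFunc k) = 3 ^ 3 := by norm_num
    rw [this]
    exact pow_ne_zero 3 h3
  have e2 : 27 * TH943.TT.bP α β = α * (2 * α ^ 2 - 9 * β) := by
    unfold TH943.TT.bP
    rw [TH943.TT.C2]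
    linear_combination (9 * α * (2 * C (9 : k)⁻¹ * α ^ 2 - β)) * TH943.TT.C3 (three_ne' h6) +
      2 * α ^ 3 * TH943.TT.C9 (three_ne' h6)
  have h1 := congrArg (algebraMap k[X] (RatFunc k)) e2
  simp only [map_mul, map_sub, map_pow, map_ofNat] at h1
  unfold coeffB
  show _ = algebraMap k[X] (RatFunc k) _
  apply mul_left_cancel₀ h27
  rw [h1]
  field_simp
  ring

end proof

/-- Let `k` be a finite field with `q` elements of characteristic at least `5`.

(1) Let `K` be a function field over `k` with `k` as exact field of constants and odd class number,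
and `E : y ^ 2 = x ^ 3 + a x + b` an elliptic curve over `K` with a `K`-rational point of order two.
Let `c(E) = ∑ f_v 2 ^ v₂(deg v)`, where `f_v` is the exponent of the conductor. Then `L(T, E)` vanishes
at `T = 1 / q` to order at most `c(E) - 4`. If `c(E) ≤ 4` the order and (if it is at most the order)
the rank are `0`; if `c(E) ≤ 5` the order is `0` or `1`, given by the sign of the functional equation.

(2) `K = k(t)` has this property. Let `E : y ^ 2 = x (x ^ 2 + α x + β)` with coprime `α, β` in `k[t]`
and `β (α ^ 2 - 4 β) ≠ 0`. Then `c(E)` is at most the sum of `2 ^ v₂(deg P)` over the monic irreducible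
factors of `β` and of `α ^ 2 - 4 β` plus a contribution `0`, `1` or `2` of the infinite place. The order
is `0` if `β` and `α ^ 2 - 4 β` are irreducible and `deg β` is odd and greater than `2 deg α`, and if
`β` is constant, `α ^ 2 - 4 β` irreducible and `deg α` odd. If `β` and `α ^ 2 - 4 β` are irreducible and
`deg α`, `deg β` are odd, the order is `0` or `1`, given by the sign. -/
theorem result :
    (∀ (k K : Type) [Field k] [Finite k] [Field K] [Algebra k K] [FF.IsFF k K], (6 : k) ≠ 0 →
      constDeg k K = 1 → Odd (S.classNumber k K) →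
      ∀ a b t : K, 4 * a ^ 3 + 27 * b ^ 2 ≠ 0 → t ^ 3 + a * t + b = 0 →
      (∀ m : ℕ, S.VanishesTo k a b m → m + 4 ≤ conductorSum k a b) ∧
      (conductorSum k a b ≤ 4 → OrderZero k a b) ∧
      (conductorSum k a b ≤ 5 → OrderBySign k a b)) ∧
    ∀ (k : Type) [Field k] [Finite k], (6 : k) ≠ 0 → FF.IsFF k (RatFunc k) ∧
      constDeg k (RatFunc k) = 1 ∧ Odd (S.classNumber k (RatFunc k)) ∧
      ∀ α β : k[X], IsCoprime α β → β ≠ 0 → α ^ 2 - 4 * β ≠ 0 →
      (4 * coeffA α β ^ 3 + 27 * coeffB α β ^ 2 ≠ 0 ∧
        ∃ t : RatFunc k, t ^ 3 + coeffA α β * t + coeffB α β = 0) ∧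
      conductorSum k (coeffA α β) (coeffB α β) ≤
        ∑ P ∈ primes β, 2 ^ padicValNat 2 P.natDegree +
        ∑ P ∈ primes (α ^ 2 - 4 * β), 2 ^ padicValNat 2 P.natDegree + atInfinity α β ∧
      (Irreducible β → Irreducible (α ^ 2 - 4 * β) → Odd β.natDegree →
        2 * α.natDegree < β.natDegree → OrderZero k (coeffA α β) (coeffB α β)) ∧
      (β.natDegree = 0 → Irreducible (α ^ 2 - 4 * β) → Odd α.natDegree →
        OrderZero k (coeffA α β) (coeffB α β)) ∧
      (Irreducible β → Irreducible (α ^ 2 - 4 * β) → Odd β.natDegree → Odd α.natDegree →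
        OrderBySign k (coeffA α β) (coeffB α β)) := by
  refine ⟨?_, ?_⟩
  · intro k K _ _ _ _ _ h6 hc hodd a b t hE ht
    exact general k K h6 hc hodd hE ht
  · intro k _ _ h6
    obtain ⟨s1, s2, s3⟩ := W309.RK.sb k
    refine ⟨s1, s2, s3, ?_⟩
    intro α β hcop hβ hγ
    have h2 := two_ne' h6
    have h3 := three_ne' h6
    have hE : 4 * coeffA α β ^ 3 + 27 * coeffB α β ^ 2 ≠ 0 := by
      rw [coeffA_eq h6, coeffB_eq h6]
      exact TH943.TT.disc_ne h3 hβ hγ
    have hroot : (W309.RF.A (C (3 : k)⁻¹ * α)) ^ 3 + coeffA α β * (W309.RF.A (C (3 : k)⁻¹ * α)) +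
        coeffB α β = 0 := by
      rw [coeffA_eq h6, coeffB_eq h6]
      exact TH943.TT.root_fam h3 α β
    have hcond : conductorSum k (coeffA α β) (coeffB α β) ≤
        ∑ P ∈ primes β, 2 ^ padicValNat 2 P.natDegree +
        ∑ P ∈ primes (α ^ 2 - 4 * β), 2 ^ padicValNat 2 P.natDegree + atInfinity α β := by
      rw [coeffA_eq h6, coeffB_eq h6, conductorSum_eq]
      exact TH943.TT.cond_fam h6 hβ hγ hcop
    have hg := general k (RatFunc k) h6 s2 s3 hE hroot
    have hinf : atInfinity α β ≤ 2 := by
      unfold atInfinity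
      split_ifs <;> omega
    have hs : ∀ D : k[X], Irreducible D → ∑ P ∈ primes D, 2 ^ padicValNat 2 P.natDegree =
        2 ^ padicValNat 2 D.natDegree := fun D hD =>
      TH943.TT.sum_irr hD (fun n => 2 ^ padicValNat 2 n)
    have hd1 : 2 * α.natDegree < β.natDegree → (α ^ 2 - 4 * β).natDegree = β.natDegree := by
      intro h
      have h8 : (α ^ 2).natDegree < (4 * β).natDegree := by
        rw [natDegree_pow, TH943.TT.natDegree_four_mul h2]; omega
      rw [natDegree_sub_eq_right_of_natDegree_lt h8, TH943.TT.natDegree_four_mul h2]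
    have hd2 : β.natDegree < 2 * α.natDegree → (α ^ 2 - 4 * β).natDegree = 2 * α.natDegree := by
      intro h
      have h8 : (4 * β).natDegree < (α ^ 2).natDegree := by
        rw [natDegree_pow, TH943.TT.natDegree_four_mul h2]; omega
      rw [natDegree_sub_eq_left_of_natDegree_lt h8, natDegree_pow]
    refine ⟨⟨hE, _, hroot⟩, hcond, ?_, ?_, ?_⟩
    · intro i1 i2 o1 hlt
      apply hg.2.1
      rw [hs _ i1, hs _ i2, hd1 hlt, TH943.TT.pow_val_odd o1] at hcond
      omega
    · intro h0 i2 o1
      apply hg.2.1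
      have hlt : β.natDegree < 2 * α.natDegree := by
        have := o1.pos
        omega
      have he : ∑ P ∈ primes β, 2 ^ padicValNat 2 P.natDegree = 0 := by
        have h9 : primes β = ∅ := TH943.TT.primes_const hβ h0
        rw [h9, Finset.sum_empty]
      rw [he, hs _ i2, hd2 hlt, TH943.TT.pow_val_two_odd o1] at hcond
      omega
    · intro i1 i2 o1 o2
      apply hg.2.2
      rcases lt_or_ge (2 * α.natDegree) β.natDegree with hlt | hge
      · rw [hs _ i1, hs _ i2, hd1 hlt, TH943.TT.pow_val_odd o1] at hcond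
        omega
      · have hlt : β.natDegree < 2 * α.natDegree := by
          obtain ⟨j, hj⟩ := o1
          omega
        rw [hs _ i1, hs _ i2, hd2 hlt, TH943.TT.pow_val_odd o1, TH943.TT.pow_val_two_odd o2] at hcond
        omega

end Pool.Agent.Results.MP_ae0bd0_nt.TwoTorsionPrimes
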